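import Pool.Agent.H65.HW.GStm

/-!
# Project HW, part HALC: Hall with capacity
-/

set_option autoImplicit false
open Classical Finset

namespace Pool.Agent.H54.HW

open Pool.Agent.H65.HW

theorem t_HALC (h2 : S_HAL2) : S_HALC := by
  intro X Y P Q R d C hd hP hQ hY
  rcases Nat.eq_zero_or_pos C with rfl | hC
  · have hPe : P = ∅ := by
      rw [Finset.eq_empty_iff_forall_notMem]
      intro x hx
      have h1 := hP x hx
      obtain ⟨y, hy⟩ := Finset.card_pos.1 (lt_of_lt_of_le (by omega : 0 < d) h1)
      rw [Finset.mem_filter] at hy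
      have h3 := hQ y hy.1
      rw [Nat.zero_mul, Nat.le_zero, Finset.card_eq_zero] at h3
      have : x ∈ P.filter (fun x => R x y) := Finset.mem_filter.2 ⟨hx, hy.2⟩
      rw [h3] at this
      exact absurd this (Finset.notMem_empty _)
    obtain ⟨y0⟩ := hY
    refine ⟨fun _ => y0, ?_, ?_⟩
    · intro x hx
      rw [hPe] at hx
      exact absurd hx (Finset.notMem_empty _)
    · intro y _
      rw [hPe]
      simp
  · have hA : ∀ x ∈ P, C * d ≤ ((Q ×ˢ (univ : Finset (Fin C))).filter
        (fun y => R x y.1)).card := by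
      intro x hx
      have h3 : (Q ×ˢ (univ : Finset (Fin C))).filter (fun y => R x y.1) =
          (Q.filter (fun y => R x y)) ×ˢ univ := by
        ext ⟨y, i⟩
        simp [Finset.mem_filter, Finset.mem_product]
      rw [h3, Finset.card_product, Finset.card_univ, Fintype.card_fin, mul_comm]
      exact Nat.mul_le_mul_right C (hP x hx)
    have hB : ∀ y ∈ Q ×ˢ (univ : Finset (Fin C)),
        (P.filter (fun x => R x y.1)).card ≤ C * d := by
      rintro ⟨y, i⟩ hy
      rw [Finset.mem_product] at hy
      exact hQ y hy.1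
    obtain ⟨f, hf1, hf2⟩ := h2 X (Y × Fin C) P (Q ×ˢ univ) (fun x y => R x y.1) (C * d)
      (Nat.mul_pos hC (by omega)) hA hB ⟨(hY.some, ⟨0, hC⟩)⟩
    refine ⟨fun x => (f x).1, ?_, ?_⟩
    · intro x hx
      have := hf1 x hx
      rw [Finset.mem_product] at this
      exact ⟨this.1.1, this.2⟩
    · intro y _
      have h3 : (P.filter (fun x => (f x).1 = y)).card ≤ (univ : Finset (Fin C)).card := by
        refine Finset.card_le_card_of_injOn (fun x => (f x).2) (fun _ _ => by simp) ?_
        intro x hx x' hx' he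
        rw [Finset.mem_coe, Finset.mem_filter] at hx hx'
        exact hf2 x hx.1 x' hx'.1 (Prod.ext (hx.2.trans hx'.2.symm) he)
      rwa [Finset.card_univ, Fintype.card_fin] at h3

end Pool.Agent.H54.HW
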